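import Pool.Agent.helper52.WP.SpecA

set_option autoImplicit false

open Complex Metric Set Filter Topology MeasureTheory
open V3S (UF)
open WP

noncomputable section

namespace WPA

/-- comparison of the two integrals along one curve. -/
theorem CI0_err (z A : ℝ → ℂ) (hz : Continuous z) (hA : Continuous A) (P Q : Polynomial ℂ) (K : Set ℂ) (ε M : ℝ)
    (hε : 0 ≤ ε) (hK : ∀ s ∈ Icc (0 : ℝ) 1, z s ∈ K) (hP : ∀ x ∈ K, P.eval x ≠ 0)
    (hQ : ∀ x ∈ K, ‖1 / P.eval x - Q.eval x‖ ≤ ε) (hM : ∀ s ∈ Icc (0 : ℝ) 1, ‖A s‖ ≤ M) :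
    ‖(∫ s in (0 : ℝ)..1, 1 / P.eval (z s) * A s) - ∫ s in (0 : ℝ)..1, Q.eval (z s) * A s‖ ≤ ε * M := by
  have c1 : ContinuousOn (fun s : ℝ => 1 / P.eval (z s) * A s) (Icc 0 1) := by
    apply ContinuousOn.mul _ hA.continuousOn
    apply ContinuousOn.div continuousOn_const (P.continuous.comp hz).continuousOn
    intro s hs
    exact hP _ (hK s hs)
  have c2 : Continuous (fun s : ℝ => Q.eval (z s) * A s) := (Q.continuous.comp hz).mul hA
  have i1 : IntervalIntegrable (fun s : ℝ => 1 / P.eval (z s) * A s) volume 0 1 := by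
    apply ContinuousOn.intervalIntegrable
    rw [uIcc_of_le zero_le_one]
    exact c1
  have i2 : IntervalIntegrable (fun s : ℝ => Q.eval (z s) * A s) volume 0 1 := c2.intervalIntegrable _ _
  rw [← intervalIntegral.integral_sub i1 i2]
  have h := intervalIntegral.norm_integral_le_of_norm_le_const (a := (0 : ℝ)) (b := 1) (C := ε * M)
    (f := fun s : ℝ => 1 / P.eval (z s) * A s - Q.eval (z s) * A s) (by
      intro s hs
      rw [uIoc_of_le zero_le_one] at hs
      have hs' : s ∈ Icc (0 : ℝ) 1 := ⟨hs.1.le, hs.2⟩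
      rw [← sub_mul, norm_mul]
      exact mul_le_mul (hQ _ (hK s hs')) (hM s hs') (norm_nonneg _) hε)
  simpa using h

theorem CI0_bd (A : ℝ → ℂ) (hA : Continuous A) : ∃ M : ℝ, 0 ≤ M ∧ ∀ s ∈ Icc (0 : ℝ) 1, ‖A s‖ ≤ M := by
  obtain ⟨M, hM⟩ := (isCompact_Icc (a := (0 : ℝ)) (b := 1)).exists_bound_of_continuousOn hA.continuousOn
  exact ⟨M, (norm_nonneg _).trans (hM 0 ⟨le_rfl, zero_le_one⟩), hM⟩

theorem CI0 (hITB : ITB_stmt) (hLIN : LIN_stmt) (hPOL : POL_stmt) (hCHN : CHN_stmt) : CI0_stmt := by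
  obtain ⟨C, hC1, hL⟩ := hLIN
  intro δ hδ hδ1
  refine ⟨δ / (128 * C), by positivity, ?_⟩
  intro f ε₁ ε k w ρ m y hdeg hWD hRt hε₁
  obtain ⟨hI0, hI1, hIadd, hIdiff, hIder, hId0, hIpol, hIinj⟩ := hITB f
  have hb := hRt.bs
  have hρ := hb.rho
  have hε0 := hb.e0
  have hεle : ε ≤ δ / (128 * C) := hb.e1.trans hε₁
  have hCpos : 0 < C := by linarith
  have hCε : 128 * C * ε ≤ δ := by
    have := (le_div_iff₀ (by positivity : (0 : ℝ) < 128 * C)).1 hεle
    linarith
  have hεs : ε ≤ 1 / 128 := by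
    have : 128 * ε ≤ 128 * C * ε := by nlinarith
    linarith
  -- the polynomial
  obtain ⟨Qk, hQd, hQe⟩ := hIpol k
  set p : Polynomial ℂ := Qk - Polynomial.X with hp
  have hpe : ∀ z, p.eval z = it f k z - z := by
    intro z
    rw [hp, Polynomial.eval_sub, Polynomial.eval_X, hQe]
  have hk1 := hb.k1
  have hQd2 : 2 ≤ Qk.natDegree := by
    rw [hQd]
    calc 2 ≤ f.natDegree := hdeg
      _ = f.natDegree ^ 1 := (pow_one _).symm
      _ ≤ f.natDegree ^ k := Nat.pow_le_pow_right (by omega) hk1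
  have hpd : 1 ≤ p.natDegree := by
    have h1 : p.natDegree = Qk.natDegree := by
      rw [hp]
      apply Polynomial.natDegree_sub_eq_left_of_natDegree_lt
      rw [Polynomial.natDegree_X]
      omega
    omega
  have hpder : ∀ a, p.eval a = 0 → δ ≤ ‖p.derivative.eval a‖ := by
    intro a ha
    rw [hpe] at ha
    have h1 := hWD k a (by omega) (sub_eq_zero.1 ha)
    have h2 : deriv (it f k) a = Qk.derivative.eval a := by
      have : it f k = fun z => Qk.eval z := funext hQe
      rw [this, Polynomial.deriv]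
    have h3 : p.derivative.eval a = deriv (it f k) a - 1 := by
      rw [hp, h2]
      simp
    rw [h3]
    have h4 : ‖deriv (it f k) a‖ ≤ ‖deriv (it f k) a - 1‖ + 1 := by
      have := norm_add_le (deriv (it f k) a - 1) 1
      simpa using this
    linarith
  -- the commutation
  have hcomm : ∀ q x, it f q (it f k x) = it f k (it f q x) := by
    intro q x
    rw [← hIadd, ← hIadd, add_comm]
  -- the key estimate
  have key : ∀ q, q ≤ k → ∀ x ∈ ball w (ρ / 32), ∀ a, p.eval a = 0 →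
      it f q x ≠ a ∧ ‖p.eval (it f q x)‖ ≤ δ / 2 * ‖it f q x - a‖ := by
    intro q hq x hx a ha
    have hinj : InjOn (it f q) (ball w ρ) := hIinj _ q k hq hb.inj
    have hx16 : x ∈ ball w (ρ / 16) := ball_subset_ball (by linarith) hx
    have hnot : a ∉ it f q '' ball w (ρ / 16) := by
      rintro ⟨x', hx', rfl⟩
      rw [hpe] at ha
      have h1 : it f q (it f k x') = it f q x' := by
        rw [hcomm]
        exact sub_eq_zero.1 ha
      have h2 := hb.hi x' hx'
      have h3 : it f k x' ∈ ball w ρ := by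
        rw [mem_ball, dist_eq_norm]
        rw [mem_ball, dist_eq_norm] at hx'
        have h4 : ‖it f k x' - w‖ ≤ ‖it f k x' - x'‖ + ‖x' - w‖ := by
          have := norm_add_le (it f k x' - x') (x' - w)
          simpa using this
        nlinarith
      have h5 := hinj h3 (ball_subset_ball (by linarith) hx') h1
      exact hb.nf x' (ball_subset_ball (by linarith) hx') h5
    have hsub8 : ball w (ρ / 8) ⊆ ball w ρ := ball_subset_ball (by linarith)
    obtain ⟨L1, L2, L3, L4⟩ := hL (it f q) w (ρ / 8) (by positivity) (hIdiff q).differentiableOn (hinj.mono hsub8)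
    have e2 : ρ / 8 / 2 = ρ / 16 := by ring
    have e4 : ρ / 8 / 4 = ρ / 32 := by ring
    rw [e2] at L1 L2
    rw [e4] at L1 L2
    have hg := hb.hi x hx16
    have hg4 : ‖it f k x - x‖ < ρ / 32 := by
      have : 2 * ε * ρ ≤ 2 * (1 / 128) * ρ := by
        apply mul_le_mul_of_nonneg_right _ hρ.le
        linarith
      nlinarith
    have l1 := L1 x hx16 (it f k x - x) hg4
    have l2 := L2 x hx a hnot
    rw [add_sub_cancel] at l1
    constructor
    · intro h
      exact hnot ⟨x, hx16, h⟩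
    · have hpz : p.eval (it f q x) = it f q (it f k x) - it f q x := by
        rw [hpe, hcomm]
      rw [hpz]
      set D := deriv (it f q) x with hD
      set G := it f k x - x with hG
      have hGn : ‖G‖ ≤ 2 * ε * ρ := hg
      have h1 : ‖it f q (it f k x) - it f q x‖ ≤ C * ‖G‖ ^ 2 / (ρ / 8) * ‖D‖ + ‖D‖ * ‖G‖ := by
        have : it f q (it f k x) - it f q x = (it f q (it f k x) - it f q x - D * G) + D * G := by ring
        rw [this]
        refine (norm_add_le _ _).trans ?_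
        rw [norm_mul]
        linarith
      have h2 : C * ‖G‖ ^ 2 / (ρ / 8) ≤ 1 * ‖G‖ := by
        rw [div_le_iff₀ (by positivity)]
        have h3 : C * ‖G‖ ≤ ρ / 8 := by
          have : C * ‖G‖ ≤ C * (2 * ε * ρ) := mul_le_mul_of_nonneg_left hGn hCpos.le
          have h4 : C * (2 * ε * ρ) = (128 * C * ε) * (ρ / 64) := by ring
          have h5 : (128 * C * ε) * (ρ / 64) ≤ 1 * (ρ / 64) :=
            mul_le_mul_of_nonneg_right (by linarith) (by positivity)
          linarith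
        nlinarith [norm_nonneg G]
      have h3 : ‖it f q (it f k x) - it f q x‖ ≤ 4 * ε * (ρ * ‖D‖) := by
        have h4 : C * ‖G‖ ^ 2 / (ρ / 8) * ‖D‖ ≤ 1 * ‖G‖ * ‖D‖ := mul_le_mul_of_nonneg_right h2 (norm_nonneg _)
        have h5 : ‖G‖ * ‖D‖ ≤ 2 * ε * ρ * ‖D‖ := mul_le_mul_of_nonneg_right hGn (norm_nonneg _)
        nlinarith
      have h4 : ρ * ‖D‖ ≤ 8 * (C * ‖it f q x - a‖) := by linarith
      have h5 : 4 * ε * (ρ * ‖D‖) ≤ 4 * ε * (8 * (C * ‖it f q x - a‖)) :=
        mul_le_mul_of_nonneg_left h4 (by positivity)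
      have h6 : 4 * ε * (8 * (C * ‖it f q x - a‖)) = (128 * C * ε) * (‖it f q x - a‖ / 4) := by ring
      have h7 : (128 * C * ε) * (‖it f q x - a‖ / 4) ≤ δ * (‖it f q x - a‖ / 4) :=
        mul_le_mul_of_nonneg_right hCε (by positivity)
      have h8 : δ * (‖it f q x - a‖ / 4) ≤ δ / 2 * ‖it f q x - a‖ := by
        have : 0 ≤ δ * ‖it f q x - a‖ := by positivity
        linarith
      linarith
  -- the points
  set v := it f m y - y with hv
  set u := it f k y - y with hu
  have hy1 := hRt.y1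
  have hy2 := hRt.y2
  have hml := hRt.ml
  have hxv : ∀ s ∈ Icc (0 : ℝ) 1, y + (s : ℂ) * v ∈ ball w (ρ / 32) := by
    intro s hs
    have h1 : y + (s : ℂ) * v = y + s • (it f m y - y) := by
      rw [hv, Complex.real_smul]
    have h2 : y + s • (it f m y - y) ∈ ball w (ρ / 200) :=
      (convex_ball w (ρ / 200)).add_smul_sub_mem hy1 hy2 hs
    rw [h1]
    exact ball_subset_ball (by linarith) h2
  have hun : ‖u‖ ≤ 2 * ε * ρ := hb.hi y (ball_subset_ball (by linarith) hy1)
  have hxu : ∀ s ∈ Icc (0 : ℝ) 1, y + (s : ℂ) * u ∈ ball w (ρ / 32) := by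
    intro s hs
    rw [mem_ball, dist_eq_norm]
    rw [mem_ball, dist_eq_norm] at hy1
    have h1 : ‖y + (s : ℂ) * u - w‖ ≤ ‖y - w‖ + ‖(s : ℂ) * u‖ := by
      have := norm_add_le (y - w) ((s : ℂ) * u)
      have e : y - w + (s : ℂ) * u = y + (s : ℂ) * u - w := by ring
      rwa [e] at this
    have h2 : ‖(s : ℂ) * u‖ ≤ 2 * ε * ρ := by
      rw [norm_mul, Complex.norm_real, Real.norm_of_nonneg hs.1]
      calc s * ‖u‖ ≤ 1 * ‖u‖ := mul_le_mul_of_nonneg_right hs.2 (norm_nonneg _)
        _ ≤ _ := by linarith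
    have h3 : 2 * ε * ρ ≤ 2 * (1 / 128) * ρ := by
      apply mul_le_mul_of_nonneg_right _ hρ.le
      linarith
    linarith
  -- the compact set
  let cv : ℕ → ℝ → ℂ := fun q s => it f q (y + (s : ℂ) * v)
  let cu : ℕ → ℝ → ℂ := fun q s => it f q (y + (s : ℂ) * u)
  have hcvc : ∀ q, Continuous (cv q) := fun q =>
    (hIdiff q).continuous.comp (continuous_const.add (Complex.continuous_ofReal.mul continuous_const))
  have hcuc : ∀ q, Continuous (cu q) := fun q =>
    (hIdiff q).continuous.comp (continuous_const.add (Complex.continuous_ofReal.mul continuous_const))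
  set K : Set ℂ := (⋃ q ∈ Finset.range k, cv q '' Icc (0 : ℝ) 1) ∪ (⋃ q ∈ Finset.range m, cu q '' Icc (0 : ℝ) 1)
    with hKdef
  have hKc : IsCompact K := by
    apply IsCompact.union
    · exact (Finset.range k).isCompact_biUnion fun q _ => isCompact_Icc.image (hcvc q)
    · exact (Finset.range m).isCompact_biUnion fun q _ => isCompact_Icc.image (hcuc q)
  have hKv : ∀ q < k, ∀ s ∈ Icc (0 : ℝ) 1, cv q s ∈ K := by
    intro q hq s hs
    left
    simp only [mem_iUnion]
    exact ⟨q, Finset.mem_range.2 hq, ⟨s, hs, rfl⟩⟩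
  have hKu : ∀ q < m, ∀ s ∈ Icc (0 : ℝ) 1, cu q s ∈ K := by
    intro q hq s hs
    right
    simp only [mem_iUnion]
    exact ⟨q, Finset.mem_range.2 hq, ⟨s, hs, rfl⟩⟩
  have hKx : ∀ z ∈ K, ∃ q ≤ k, ∃ x ∈ ball w (ρ / 32), z = it f q x := by
    intro z hz
    rcases hz with hz | hz
    · simp only [mem_iUnion] at hz
      obtain ⟨q, hq, s, hs, rfl⟩ := hz
      exact ⟨q, (Finset.mem_range.1 hq).le, _, hxv s hs, rfl⟩
    · simp only [mem_iUnion] at hz
      obtain ⟨q, hq, s, hs, rfl⟩ := hz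
      exact ⟨q, (Finset.mem_range.1 hq).le.trans hml.le, _, hxu s hs, rfl⟩
  have hKkey : ∀ z ∈ K, ∀ a, p.eval a = 0 → z ≠ a ∧ ‖p.eval z‖ ≤ δ / 2 * ‖z - a‖ := by
    intro z hz a ha
    obtain ⟨q, hq, x, hx, rfl⟩ := hKx z hz
    exact key q hq x hx a ha
  have hKne : ∀ z ∈ K, p.eval z ≠ 0 := by
    intro z hz h0
    exact (hKkey z hz z h0).1 rfl
  -- the bounds of the speeds
  let Av : ℕ → ℝ → ℂ := fun q s => deriv (it f q) (y + (s : ℂ) * v) * v
  let Au : ℕ → ℝ → ℂ := fun q s => deriv (it f q) (y + (s : ℂ) * u) * u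
  have hdc : ∀ q, Continuous (deriv (it f q)) := by
    intro q
    obtain ⟨Q, _, hQ⟩ := hIpol q
    have : it f q = fun z => Q.eval z := funext hQ
    rw [this]
    have h2 : deriv (fun z => Q.eval z) = fun z => Q.derivative.eval z := by
      funext z
      rw [Polynomial.deriv]
    rw [h2]
    exact Q.derivative.continuous
  have hAvc : ∀ q, Continuous (Av q) := fun q =>
    ((hdc q).comp (continuous_const.add (Complex.continuous_ofReal.mul continuous_const))).mul continuous_const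
  have hAuc : ∀ q, Continuous (Au q) := fun q =>
    ((hdc q).comp (continuous_const.add (Complex.continuous_ofReal.mul continuous_const))).mul continuous_const
  choose Mv hMv0 hMv using fun q => CI0_bd (Av q) (hAvc q)
  choose Mu hMu0 hMu using fun q => CI0_bd (Au q) (hAuc q)
  have hcIv : ∀ q, cI f k q y v = ∫ s in (0 : ℝ)..1, 1 / p.eval (cv q s) * Av q s := by
    intro q
    unfold cI
    apply intervalIntegral.integral_congr
    intro s _
    show 1 / (it f q (it f k (y + (s : ℂ) * v)) - it f q (y + (s : ℂ) * v)) * _ = 1 / p.eval (it f q (y + (s : ℂ) * v)) * _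
    rw [hpe, hcomm]
  have hcIu : ∀ q, cI f k q y u = ∫ s in (0 : ℝ)..1, 1 / p.eval (cu q s) * Au q s := by
    intro q
    unfold cI
    apply intervalIntegral.integral_congr
    intro s _
    show 1 / (it f q (it f k (y + (s : ℂ) * u)) - it f q (y + (s : ℂ) * u)) * _ = 1 / p.eval (it f q (y + (s : ℂ) * u)) * _
    rw [hpe, hcomm]
  set T : ℝ := (∑ q ∈ Finset.range k, Mv q) + ∑ q ∈ Finset.range m, Mu q with hT
  have hT0 : 0 ≤ T := add_nonneg (Finset.sum_nonneg fun q _ => hMv0 q) (Finset.sum_nonneg fun q _ => hMu0 q)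
  have main : ∀ ε' > (0 : ℝ), ‖(∑ q ∈ Finset.range k, cI f k q y v) - ∑ q ∈ Finset.range m, cI f k q y u‖ ≤ ε' * T := by
    intro ε' hε'
    obtain ⟨Q, hQ⟩ := hPOL p K δ hδ hpd hpder hKc hKkey ε' hε'
    have hch := hCHN f Q k m y
    have e1 : ‖(∑ q ∈ Finset.range k, cI f k q y v) - ∑ q ∈ Finset.range k, ∫ s in (0 : ℝ)..1, Q.eval (cv q s) * Av q s‖ ≤
        ε' * ∑ q ∈ Finset.range k, Mv q := by
      rw [← Finset.sum_sub_distrib, Finset.mul_sum]
      apply norm_sum_le_of_le
      intro q hq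
      rw [hcIv q]
      exact CI0_err (cv q) (Av q) (hcvc q) (hAvc q) p Q K ε' (Mv q) hε'.le (hKv q (Finset.mem_range.1 hq)) hKne hQ (hMv q)
    have e2 : ‖(∑ q ∈ Finset.range m, cI f k q y u) - ∑ q ∈ Finset.range m, ∫ s in (0 : ℝ)..1, Q.eval (cu q s) * Au q s‖ ≤
        ε' * ∑ q ∈ Finset.range m, Mu q := by
      rw [← Finset.sum_sub_distrib, Finset.mul_sum]
      apply norm_sum_le_of_le
      intro q hq
      rw [hcIu q]
      exact CI0_err (cu q) (Au q) (hcuc q) (hAuc q) p Q K ε' (Mu q) hε'.le (hKu q (Finset.mem_range.1 hq)) hKne hQ (hMu q)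
    have hch' : (∑ q ∈ Finset.range k, ∫ s in (0 : ℝ)..1, Q.eval (cv q s) * Av q s) =
        ∑ q ∈ Finset.range m, ∫ s in (0 : ℝ)..1, Q.eval (cu q s) * Au q s := hch
    set S1 := ∑ q ∈ Finset.range k, cI f k q y v
    set S2 := ∑ q ∈ Finset.range m, cI f k q y u
    set X1 := ∑ q ∈ Finset.range k, ∫ s in (0 : ℝ)..1, Q.eval (cv q s) * Av q s
    set X2 := ∑ q ∈ Finset.range m, ∫ s in (0 : ℝ)..1, Q.eval (cu q s) * Au q s
    have e3 : S1 - S2 = (S1 - X1) - (S2 - X2) := by
      rw [hch']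
      ring
    rw [e3, hT, mul_add]
    exact (norm_sub_le _ _).trans (add_le_add e1 e2)
  have hfin : ‖(∑ q ∈ Finset.range k, cI f k q y v) - ∑ q ∈ Finset.range m, cI f k q y u‖ ≤ 0 := by
    apply le_of_forall_pos_le_add
    intro e he
    have h1 := main (e / (T + 1)) (by positivity)
    have h2 : e / (T + 1) * T ≤ e := by
      rw [div_mul_eq_mul_div, div_le_iff₀ (by positivity)]
      nlinarith
    linarith
  exact sub_eq_zero.1 (norm_le_zero_iff.1 hfin)

end WPA
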